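import Pool.Agent.TH192.MT.IdJet

set_option autoImplicit false

/-! # The global motivic zeta functions of the forms over determinantal ideals

Let `x` be the generic matrix of one of the three spaces `S` of matrices: all `m × n` matrices, the
symmetric `n × n` matrices, the skew symmetric `n × n` matrices (`MSpace`). For `t < T` let
`F_t = ∑_j y_{t,j} M_j(x)`, where the `M_j` are the `p t`-minors of `x` (the Pfaffians of size
`2 (p t)` in the skew symmetric case), `p t < min (m, n)`, `p t < n`, or `2 (p t) + 1 < n`
(`Small`), and the `y_{t,j}` are further variables, separate for each `t`. Let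
`f = ∏ t, F_t ^ a t ∈ ℤ[x, y]` (`detForm`), `a t > 0`.

The motivic zeta function of `f` (all jets, `f(φ) = t ^ d mod t ^ (d + 1)`) lies in the ring generated
by `T` and the `1 / (1 - 𝕃 ^ a T ^ b)` for an explicit finite set of pairs `(a, b)`, `a < 0 < b`, such
that `a / b` is a root of the Bernstein-Sato polynomial of `f`; by the theorem of Malgrange and
Kashiwara `exp(2 π i a / b)` is then an eigenvalue of the monodromy of `f` at some point.

The zeta functions for the jets with origin in a constructible set, and the roots, are computed in the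
starting library (`zetaM_mem`, `form_roots`), where they were used for the local zeta functions at the
points; no resolution of singularities is used. -/

namespace Pool.Agent.Results.MP_432c1b_ag.DeterminantalForms

open MvPolynomial Pool.Agent.H628R4.TP Pool.Agent.TH192.DT Pool.Agent.TH192.MT
open Pool.Agent.W428.MOT (Pt Constr ratRing)

/-- Every pair `(a, b)` of `P` has `a < 0 < b`, and `a / b` is a root of every `b₀` with
`b₀(s) f ^ s = P(s) f ^ (s + 1)`, `P(s)` in the Weyl algebra, polynomial in `s`; in particular of the
Bernstein-Sato polynomial of `f`. -/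
def RootPairs {σ : Type} (f : MvPolynomial σ ℤ) (P : Finset (ℤ × ℤ)) : Prop :=
  ∀ q ∈ P, q.1 < 0 ∧ 0 < q.2 ∧
    ∀ b : Polynomial ℂ, IsBFunction (map (Int.castRingHom ℂ) f) b → b.eval ((q.1 : ℂ) / q.2) = 0

/-- For every field `K` of characteristic `0` the motivic zeta function of `f` lies in the ring generated
by `T` and the `1 / (1 - 𝕃 ^ a T ^ b)`, `(a, b)` in `P`; and so do the series for the jets with origin in
any constructible set `W`. -/
def ZetaIn {σ : Type} [Fintype σ] (f : MvPolynomial σ ℤ) (P : Finset (ℤ × ℤ)) : Prop :=
  ∀ (K : Type) [Field K] [CharZero K],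
    zetaM (map (Int.castRingHom K) f) Set.univ {1} ∈ ratRing K (P : Set (ℤ × ℤ)) ∧
    ∀ W : Set (Pt K σ), Constr W →
      zetaM (map (Int.castRingHom K) f) W {1} ∈ ratRing K (P : Set (ℤ × ℤ))

/-- **The motivic monodromy conjecture (Bernstein-Sato form) for the global motivic zeta function of
`f = ∏ t, F_t ^ a t`**, `F_t` the forms with the minors of size `p t` of a generic, symmetric or skew
symmetric matrix as coefficients.

`formPairs S p a` is the set of the pairs `(-ν_d, N_d)`, `d` a rank, `ν_d` the codimension of the locus
of the matrices of rank at most `d` (`2 d`), `N_d = ∑ t, a t max (p t - d, 0) > 0`, and of the pairs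
`(-1, a t)`. For every field `K` of characteristic `0`, `zetaM f W {1}` is the series
`∑_{d ≥ 0} [X_d] 𝕃 ^ (-n d) T ^ d`, where `X_d` is the set of the `d`-jets `φ` with `φ(0) ∈ W` and
`f(φ) = t ^ d mod t ^ (d + 1)`; for `W = Set.univ` it is the motivic zeta function of `f`. -/
theorem result (S : MSpace) (T : ℕ) (p a : Fin T → ℕ) (hp : ∀ t, S.Small (p t))
    (ha : ∀ t, 0 < a t) :
    RootPairs (detForm S p a) (formPairs S p a) ∧ ZetaIn (detForm S p a) (formPairs S p a) :=
  ⟨fun q hq => ⟨(form_roots S T p a hp ha q hq).1, (form_roots S T p a hp ha q hq).2.1,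
    (form_roots S T p a hp ha q hq).2.2.1⟩,
    fun _ _ _ => ⟨zetaM_mem S T p a hp ha Pool.Agent.W428.MOT.Constr.univ good_one,
      fun _ hW => zetaM_mem S T p a hp ha hW good_one⟩⟩

end Pool.Agent.Results.MP_432c1b_ag.DeterminantalForms
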