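import Pool.Agent.Q300.LM.Glob

/-!
# The motivic monodromy conjecture for hypersurfaces with finitely many singular points, all of
# them stably sparse

Let `f ∈ ℂ[x_1, …, x_n]` be nonconstant such that `{f = 0}` has only finitely many points where all
the partial derivatives of `f` vanish. Assume that the germ of `f` at each of them is stably sparse:
for some `κ` the germ of `f(p + x) + y_1 z_1 + ⋯ + y_κ z_κ` becomes, in suitable formal coordinates and
up to a unit factor, a polynomial `∑_j c_j X ^ (v j)` with affinely independent exponents. This holds
for instance for all the simple singularities `A_k, D_k, E_6, E_7, E_8`, all the singularities which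
are given by Brieskorn-Pham polynomials or by invertible polynomials in suitable formal coordinates,
and all their suspensions and stabilisations, in any number of variables. We prove that the global
motivic zeta function `∑_{d ≥ 0} [X_{d,1}] 𝕃 ^ (- n d) T ^ d` of `f` lies in the ring generated by `T`
and finitely many `1 / (1 - 𝕃 ^ a T ^ b)` with `a / b` a root of the Bernstein-Sato polynomial of `f`
(so `a < 0`, and `exp(2 π i a / b)` is an eigenvalue of the monodromy of `f` at a point of `{f = 0}`,
by the theorems of Kashiwara and Malgrange). The same holds, with the same pairs, for the jets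
with origin in any constructible set and with any constructible condition on the angular component.

Method. (1) The classes of the `N`-jets with origin `0` on which `F` has order `N` and a given
angular component (or order at least `i`) are invariant under formal changes of coordinates and
multiplication of `F` by a unit with constant term one; the inverse of a formal change of
coordinates is constructed up to any order by Newton's method. (2) By the classification of the jets
of `F + y z` (starting library, `Y229.MS`) the classes for `F` determine those for `F + y z` for all
origins `(0, y, z)`; the origins different from `0` are smooth points and contribute only the factor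
`1 / (1 - 𝕃 ^ (-1) T)` (`Q59.TR`). So the zeta functions of `G` and `G + y z` at the origin determine
that of `f`. (3) The theorem on affinely independent exponents at the origin (starting library,
`TH216.LR`) is refined: `(1 - 𝕃 ^ (-1) T) Z_{G,0}(T)` has only the denominators
`1 - 𝕃 ^ (- |a|) T ^ (N_a)` such that `- |a| / N_a` is a root of every `c(s)` with `(s + 1) c(s)` in the
local Bernstein-Sato ideal of `G`. (4) A local functional equation of `f` with `(s + 1) c(s)` gives
one of `G` with `(s + 1) c(s + κ)`.
-/

set_option autoImplicit false

namespace Pool.Agent.Results.MP_432c1b_ag.StablySparseSingularities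

open MvPolynomial Pool.Agent.W428.MOT Pool.Agent.W375.MG Pool.Agent.Q300.LM
open Pool.Agent.H628R4.TP (IsBFunction)

/-- **The motivic monodromy conjecture (Bernstein-Sato form) for the global motivic zeta function of
`f` with finitely many singular points in `{f = 0}`, all of them stably sparse.**

`StablySparseAt f p`: for some `κ` the germ of `f(p + x) + ∑_{i ≤ κ} y_i z_i` at the origin becomes, in
suitable formal coordinates and up to a unit factor, a polynomial `∑_j c_j X ^ (v j)`, `c_j ≠ 0`, at
least one term, with affinely independent exponents `v j ≠ 0`. `zetaW f W` is the motivic zeta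
function `∑_{d ≥ 0} [X_{d,1,W}] 𝕃 ^ (- n d) T ^ d` of the jets with origin in `W` and
`f = t ^ d mod t ^ (d + 1)`; `W = Set.univ` gives the motivic zeta function of the problem. For
`zetaG f W E` the condition is `f = a t ^ d mod t ^ (d + 1)`, `a ∈ E`, `E` a constructible set of
nonzero numbers. `IsBFunction f b` says that `b(s) f ^ s = P(s) f ^ (s + 1)` for a differential
operator `P(s)` in the Weyl algebra, polynomial in `s`; the Bernstein-Sato polynomial `b_f` is one of
these polynomials `b`. -/
theorem result {n : ℕ} (f : MvPolynomial (Fin n) ℂ) (hf : f.totalDegree ≠ 0)
    (hfin : {p : Fin n → ℂ | eval p f = 0 ∧ ∀ j, eval p (pderiv j f) = 0}.Finite)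
    (h : ∀ p : Fin n → ℂ, eval p f = 0 → (∀ j, eval p (pderiv j f) = 0) →
      StablySparseAt f p) :
    ∃ S : Finset (ℤ × ℤ),
      (∀ q ∈ S, 0 < q.2 ∧ ∀ b : Polynomial ℂ, IsBFunction f b →
        b.eval ((q.1 : ℂ) / q.2) = 0) ∧
      ∀ W : Set (Pt ℂ (Fin n)), Constr W → zetaW f W ∈ ratRing ℂ S ∧
        ∀ E : Set (AlgebraicClosure ℂ), Good E → zetaG f W E ∈ ratRing ℂ S := by
  obtain ⟨S, hS, hz⟩ := Pool.Agent.Q300.LM.global f hf hfin h
  refine ⟨S, hS, fun W hW => ⟨?_, fun E hE => hz W E hW hE⟩⟩
  rw [zetaW_eq]
  exact hz W {1} hW good_one

end Pool.Agent.Results.MP_432c1b_ag.StablySparseSingularities
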