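import Pool.Agent.Q260.MM.Gl

/-!
# The motivic monodromy conjecture for hypersurfaces: reduction to trilinear polynomials

Let `f ∈ ℂ[x_1, …, x_n]` be a non-constant polynomial. For `κ ≥ κ(f)` the polynomial
`f(x) + y_1 z_1 + ⋯ + y_κ z_κ` becomes, by an automorphism of the polynomial ring, a polynomial `G` of
the form `∑ a_{ijk} x_i y_j z_k` with `x_0 = y_0 = z_0 = 1`, i.e. the restriction of a cubic form
`∑ a_{ijk} x_i y_j z_k` (a 3-tensor) to an affine chart.

If the motivic zeta functions of these `G` for `κ` and for `κ + 1` lie in the rings generated by `T` and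
finitely many `1 / (1 - 𝕃 ^ a T ^ b)` such that `exp(2 π i a / b)` is an eigenvalue of the monodromy of
`G` at a point of `{G = 0}`, then the same is true for `f`. So the motivic monodromy conjecture for all
complex polynomials is equivalent to its case of the trilinear polynomials. The zeta function is
that of the problem, `∑_{d ≥ 0} [X_{d,1}] 𝕃 ^ (- n d) T ^ d`, `X_{d,1}` the jets with `f(φ) = t ^ d`.

The eigenvalues are expressed, as in the starting results of this problem, by the Bernstein-Sato
polynomial (theorem of Malgrange and Kashiwara).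

The elimination for `f + y z` is from the starting library (`Pool.Agent.Y229.MS`), the automorphism is
from `Pool.Agent.Q59.TR`.
-/

set_option autoImplicit false

namespace Pool.Agent.Results.MP_432c1b_ag.TrilinearReduction

open MvPolynomial Pool.Agent.W375.MG Pool.Agent.W428.MOT Pool.Agent.H628R4.TP

/-- The motivic monodromy conjecture for `f`: the motivic zeta function
`∑_{d ≥ 0} [X_{d,1}] 𝕃 ^ (- n d) T ^ d` (`zetaW f Set.univ`) lies in the subring of `𝓜[[T]]` generated by
`𝓜`, `T` and the `1 / (1 - 𝕃 ^ a T ^ b)`, `(a, b) ∈ S`, for a finite set `S` of pairs with `b > 0` such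
that for every polynomial `B` with `B(s) f ^ s = P(s) f ^ (s + 1)`, `P(s)` in the Weyl algebra,
polynomial in `s` (`IsBFunction f B`), in particular for the Bernstein-Sato polynomial, some
`a / b - i`, `i ∈ ℤ`, is a root of `B`. By the theorem of Malgrange and Kashiwara this means that
`exp(2 π i a / b)` is an eigenvalue of the monodromy of `f` at some point of `{f = 0}`. -/
def MonodromyMC {n : ℕ} (f : MvPolynomial (Fin n) ℂ) : Prop :=
  ∃ S : Finset (ℤ × ℤ),
    (∀ p ∈ S, 0 < p.2 ∧ ∀ b : Polynomial ℂ, IsBFunction f b →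
      ∃ i : ℤ, b.eval ((p.1 : ℂ) / p.2 - i) = 0) ∧
    zetaW f Set.univ ∈ ratRing ℂ (S : Set (ℤ × ℤ))

/-- `f = ∑ a_{ijk} x_i y_j z_k` with `x_0 = y_0 = z_0 = 1`: the variables can be coloured with three
colours such that every monomial of `f` is of degree at most one in the variables of each colour. -/
def Trilinear {n : ℕ} (f : MvPolynomial (Fin n) ℂ) : Prop :=
  ∃ col : Fin n → Fin 3, ∀ w ∈ f.support, ∀ g : Fin 3,
    ∑ i ∈ Finset.univ.filter (fun i => col i = g), w i ≤ 1

theorem monodromy_iff {n : ℕ} (f : MvPolynomial (Fin n) ℂ) :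
    MonodromyMC f ↔ zetaG f Set.univ {1} ∈ ratRing ℂ (Pool.Agent.Q260.MM.WkG f) := by
  rw [← zetaW_eq]
  constructor
  · rintro ⟨S, hS, h⟩
    exact ratRing_mono (fun p hp => hS p hp) h
  · intro h
    obtain ⟨F, hF, h1⟩ := Pool.Agent.Q260.MM.exists_finite h
    exact ⟨F, fun p hp => hF hp, h1⟩

/-- **Reduction of the motivic monodromy conjecture to trilinear polynomials** (for the
non-constant polynomials over `ℂ`, i.e. of total degree different from `0`). -/
theorem result :
    (∀ (n : ℕ) (f : MvPolynomial (Fin n) ℂ), f.totalDegree ≠ 0 → MonodromyMC f) ↔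
      ∀ (n : ℕ) (f : MvPolynomial (Fin n) ℂ), f.totalDegree ≠ 0 → Trilinear f →
        MonodromyMC f := by
  refine ⟨fun h n f hf _ => h n f hf, fun h n f hf => ?_⟩
  rw [monodromy_iff]
  exact Pool.Agent.Q260.MM.weakG_transfer good_one
    (fun m g hg hT => (monodromy_iff g).1 (h m g hg hT)) f hf

end Pool.Agent.Results.MP_432c1b_ag.TrilinearReduction
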